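import Pool.Agent.W982.AT.Defs

/-!
# AT-B1: bad orientations cancel
-/

namespace Pool.Agent.W982.AT

namespace B19

set_option linter.unusedSectionVars false

section
variable {Col Row Dir Cp : Type} [Fintype Col] [Fintype Row] [Fintype Dir] [Fintype Cp]
  [DecidableEq Col] [DecidableEq Row] [DecidableEq Dir] [DecidableEq Cp]

/-- The edges as a sum type. -/
def toSum : Et Col Row Dir Cp ≃
    ((Fin 4 × Fin 4) ⊕ Col ⊕ (Row × Fin 3) ⊕ Dir ⊕ (Cp × (Bool ⊕ (Bool × Bool × Bool)))) where
  toFun e := match e with
    | .k i j => .inl (i, j)
    | .col x => .inr (.inl x)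
    | .row r a => .inr (.inr (.inl (r, a)))
    | .dir d => .inr (.inr (.inr (.inl d)))
    | .mid c f => .inr (.inr (.inr (.inr (c, .inl f))))
    | .out c f h t => .inr (.inr (.inr (.inr (c, .inr (f, h, t)))))
  invFun e := match e with
    | .inl (i, j) => .k i j
    | .inr (.inl x) => .col x
    | .inr (.inr (.inl (r, a))) => .row r a
    | .inr (.inr (.inr (.inl d))) => .dir d
    | .inr (.inr (.inr (.inr (c, .inl f)))) => .mid c f
    | .inr (.inr (.inr (.inr (c, .inr (f, h, t))))) => .out c f h t
  left_inv e := by cases e <;> rfl
  right_inv e := by rcases e with _ | _ | _ | _ | ⟨c, _ | ⟨f, h, t⟩⟩ <;> rfl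

@[to_additive]
theorem prod_Et {M : Type*} [CommMonoid M] (F : Et Col Row Dir Cp → M) :
    ∏ e, F e = (∏ i, ∏ j, F (.k i j)) * ((∏ x, F (.col x)) * ((∏ r, ∏ a, F (.row r a)) *
      ((∏ d, F (.dir d)) * ∏ c, ((∏ f, F (.mid c f)) * ∏ f, ∏ h, ∏ t, F (.out c f h t))))) := by
  rw [← toSum.symm.prod_comp F]
  simp only [Fintype.prod_sum_type, Fintype.prod_prod_type]
  rfl

theorem od_eq (S : Sys Col Row Dir Cp) (o : Et Col Row Dir Cp → Bool) (v : Vt Col Row Cp) :
    od S.E o v = ∑ e, if tl S.E o e = v then 1 else 0 := by
  rw [od, Finset.card_filter]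

theorem tl_mid (S : Sys Col Row Dir Cp) (o : Et Col Row Dir Cp → Bool) (c : Cp) (f : Bool) :
    tl S.E o (.mid c f) = .br c f (!(o (.mid c f))) := by
  cases h : o (.mid c f) <;> simp [tl, Sys.E, h]

/-- the out-degree at a vertex of a coupler -/
theorem od_br (S : Sys Col Row Dir Cp) (o : Et Col Row Dir Cp → Bool) (c : Cp) (f h : Bool) :
    od S.E o (.br c f h) = (if o (.mid c f) = h then 0 else 1) +
      ((if o (.out c f h false) then 1 else 0) + (if o (.out c f h true) then 1 else 0)) := by
  rw [od_eq, sum_Et]
  have h1 : ∀ i j, tl S.E o (.k i j) ≠ .br c f h := by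
    intro i j; simp only [tl, Sys.E]; split <;> simp
  have h2 : ∀ x, tl S.E o (.col x) ≠ .br c f h := by
    intro i; simp only [tl, Sys.E]; split <;> simp
  have h3 : ∀ i j, tl S.E o (.row i j) ≠ .br c f h := by
    intro i j; simp only [tl, Sys.E]; split <;> simp
  have h4 : ∀ x, tl S.E o (.dir x) ≠ .br c f h := by
    intro i; simp only [tl, Sys.E]; split <;> simp
  simp only [h1, h2, h3, h4, if_false, Finset.sum_const_zero, zero_add]
  rw [Finset.sum_eq_single c]
  · have h5 : ∀ f' h' t, (if tl S.E o (.out c f' h' t) = .br c f h then 1 else 0) =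
        (if f' = f ∧ h' = h then (if o (.out c f h t) then 1 else 0) else 0 : ℕ) := by
      intro f' h' t
      by_cases hh : f' = f ∧ h' = h
      · obtain ⟨rfl, rfl⟩ := hh
        simp only [tl, Sys.E]
        by_cases h6 : o (.out c f' h' t) <;> simp [h6]
      · rw [if_neg hh]
        simp only [tl, Sys.E]
        by_cases h6 : o (.out c f' h' t)
        · simp only [h6, if_true]
          rw [if_neg]
          simpa using hh
        · simp [h6]
    simp only [h5, tl_mid, Vt.br.injEq, true_and, Fintype.sum_bool]
    cases f <;> cases h <;> cases (o (.mid c true)) <;> cases (o (.mid c false)) <;> simp <;> ring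
  · intro c' _ hc'
    have h6 : ∀ f' h' t, tl S.E o (.out c' f' h' t) ≠ .br c f h := by
      intro f' h' t
      simp only [tl, Sys.E]
      split
      · simp [hc']
      · simp
    simp [h6, tl_mid, hc']
  · simp

/-- Swap the states of the two forms of the coupler `c`. -/
def flp (c : Cp) (o : Et Col Row Dir Cp → Bool) : Et Col Row Dir Cp → Bool
  | .out c' f h t => if c' = c then o (.out c (!f) (xor h t) t) else o (.out c' f h t)
  | .mid c' f => if c' = c then xor (o (.mid c (!f))) (typ o c (!f)) else o (.mid c' f)
  | .k i j => o (.k i j)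
  | .col x => o (.col x)
  | .row r a => o (.row r a)
  | .dir d => o (.dir d)

theorem typ_flp (c : Cp) (o : Et Col Row Dir Cp → Bool) (f : Bool) :
    typ (flp c o) c f = typ o c (!f) := by
  simp [typ, flp, Bool.and_comm]

theorem typ_flp_ne {c c' : Cp} (hc : c' ≠ c) (o : Et Col Row Dir Cp → Bool) (f : Bool) :
    typ (flp c o) c' f = typ o c' f := by
  simp [typ, flp, hc]

theorem flp_flp (c : Cp) (o : Et Col Row Dir Cp → Bool) : flp c (flp c o) = o := by
  funext e
  cases e with
  | k i j => rfl
  | col x => rfl
  | row r a => rfl
  | dir d => rfl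
  | mid c' f =>
    by_cases hc : c' = c
    · subst hc
      have h1 : flp c' (flp c' o) (.mid c' f) =
          xor (flp c' o (.mid c' (!f))) (typ (flp c' o) c' (!f)) := by
        rw [flp]; simp
      have h2 : flp c' o (.mid c' (!f)) = xor (o (.mid c' (!!f))) (typ o c' (!!f)) := by
        rw [flp]; simp
      rw [h1, h2, typ_flp]
      simp
    · simp [flp, hc]
  | out c' f h t =>
    by_cases hc : c' = c
    · subst hc
      simp [flp]
    · simp [flp, hc]

/-- the number of edges of coupler `c` paying the column `x` is not changed -/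
theorem od_flp (S : Sys Col Row Dir Cp) (c : Cp) {o : Et Col Row Dir Cp → Bool}
    (ho : ∀ v, od S.E o v = 2) (v : Vt Col Row Cp) : od S.E (flp c o) v = 2 := by
  by_cases hv : ∃ f h, v = .br c f h
  · obtain ⟨f, h, rfl⟩ := hv
    rw [od_br]
    have h1 := ho (.br c (!f) false)
    have h2 := ho (.br c (!f) true)
    rw [od_br] at h1 h2
    have e1 : flp c o (.mid c f) = xor (o (.mid c (!f))) (typ o c (!f)) := by simp [flp]
    have e2 : flp c o (.out c f h false) = o (.out c (!f) h false) := by simp [flp]
    have e3 : flp c o (.out c f h true) = o (.out c (!f) (!h) true) := by simp [flp]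
    rw [e1, e2, e3, typ]
    clear e1 e2 e3
    revert h1 h2
    generalize o (.mid c (!f)) = m
    cases h
    · simp only [Bool.not_false]
      generalize o (.out c (!f) false false) = a0
      generalize o (.out c (!f) false true) = a1
      generalize o (.out c (!f) true false) = b0
      generalize o (.out c (!f) true true) = b1
      revert m a0 a1 b0 b1
      decide
    · simp only [Bool.not_true]
      generalize o (.out c (!f) false false) = a0
      generalize o (.out c (!f) false true) = a1
      generalize o (.out c (!f) true false) = b0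
      generalize o (.out c (!f) true true) = b1
      revert m a0 a1 b0 b1
      decide
  · rw [← ho v, od_eq, od_eq, sum_Et, sum_Et]
    congr 1
    congr 1
    congr 1
    congr 1
    refine Finset.sum_congr rfl fun c' _ => ?_
    by_cases hc : c' = c
    · subst hc
      have h0 : ∀ o' : Et Col Row Dir Cp → Bool, ∀ f, tl S.E o' (.mid c' f) ≠ v := by
        intro o' f h
        rw [tl_mid] at h
        exact hv ⟨f, _, h.symm⟩
      have h1 : ∀ o' : Et Col Row Dir Cp → Bool, ∀ f h t,
          (if tl S.E o' (.out c' f h t) = v then 1 else 0 : ℕ) =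
          if o' (.out c' f h t) = false then
            (if .col (S.cc c' t (xor h (f && t))) = v then 1 else 0) else 0 := by
        intro o' f h t
        simp only [tl, Sys.E]
        by_cases h6 : o' (.out c' f h t)
        · simp only [h6, if_true]
          rw [if_neg]
          · simp
          · intro h; exact hv ⟨f, _, h.symm⟩
        · simp [h6]
      simp only [h0, h1, if_false, Fintype.sum_bool, flp, if_true, Bool.not_true, Bool.not_false,
        Bool.xor_false, Bool.xor_true, Bool.and_true, Bool.and_false]
      ring
    · have h1 : ∀ f, tl S.E (flp c o) (.mid c' f) = tl S.E o (.mid c' f) := by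
        intro f
        simp [tl, flp, hc]
      have h2 : ∀ f h t, tl S.E (flp c o) (.out c' f h t) = tl S.E o (.out c' f h t) := by
        intro f h t
        simp [tl, flp, hc]
      simp only [h1, h2]

theorem sg_flp (c : Cp) {o : Et Col Row Dir Cp → Bool} (hb : typ o c false ≠ typ o c true) :
    sg (flp c o) = - sg o := by
  unfold sg
  rw [prod_Et, prod_Et]
  have key : (∏ c', ((∏ f, (if flp c o (.mid c' f) then (1 : ℤ) else -1)) *
      ∏ f, ∏ h, ∏ t, (if flp c o (.out c' f h t) then (1 : ℤ) else -1))) =
      - ∏ c', ((∏ f, (if o (.mid c' f) then (1 : ℤ) else -1)) *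
      ∏ f, ∏ h, ∏ t, (if o (.out c' f h t) then (1 : ℤ) else -1)) := by
    rw [← Finset.mul_prod_erase Finset.univ _ (Finset.mem_univ c),
      ← Finset.mul_prod_erase Finset.univ (fun c' => (∏ f, (if o (.mid c' f) then (1 : ℤ) else -1)) *
      ∏ f, ∏ h, ∏ t, (if o (.out c' f h t) then (1 : ℤ) else -1)) (Finset.mem_univ c), ← neg_mul]
    congr 1
    · have h1 : ∀ f, flp c o (.mid c f) = xor (o (.mid c (!f))) (typ o c (!f)) := by
        intro f; simp [flp]
      have h2 : ∀ f h t, flp c o (.out c f h t) = o (.out c (!f) (xor h t) t) := by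
        intro f h t; simp [flp]
      simp only [h1, h2, Fintype.prod_bool, Bool.not_true, Bool.not_false, Bool.xor_false,
        Bool.xor_true]
      have h3 : (if (xor (o (.mid c false)) (typ o c false)) = true then (1 : ℤ) else -1) *
          (if (xor (o (.mid c true)) (typ o c true)) = true then (1 : ℤ) else -1) =
          - ((if (o (.mid c true)) = true then (1 : ℤ) else -1) *
          (if (o (.mid c false)) = true then (1 : ℤ) else -1)) := by
        revert hb
        cases (typ o c false) <;> cases (typ o c true) <;> cases (o (.mid c false)) <;>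
          cases (o (.mid c true)) <;> simp
      rw [h3]
      ring
    · refine Finset.prod_congr rfl fun c' hc' => ?_
      have hc : c' ≠ c := Finset.ne_of_mem_erase hc'
      simp [flp, hc]
  rw [key]
  exact (by intros; ring : ∀ a b c d e : ℤ, a * (b * (c * (d * -e))) = -(a * (b * (c * (d * e)))))
    _ _ _ _ _

/-- the bad couplers -/
def bad (o : Et Col Row Dir Cp → Bool) : Finset Cp :=
  Finset.univ.filter fun c => typ o c false ≠ typ o c true

theorem bad_flp (c : Cp) (o : Et Col Row Dir Cp → Bool) : bad (flp c o) = bad o := by
  ext c'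
  simp only [bad, Finset.mem_filter, Finset.mem_univ, true_and]
  by_cases hc : c' = c
  · subst hc
    rw [typ_flp, typ_flp]
    simp only [Bool.not_false, Bool.not_true]
    exact ne_comm
  · rw [typ_flp_ne hc, typ_flp_ne hc]

open Classical in
/-- a bad coupler -/
noncomputable def pk (B : Finset Cp) : Option Cp := if h : B.Nonempty then some h.choose else none

theorem pk_some {B : Finset Cp} {c : Cp} (h : pk B = some c) : c ∈ B := by
  unfold pk at h
  split at h
  · rename_i hB
    have := hB.choose_spec
    simp only [Option.some.injEq] at h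
    rwa [h] at this
  · exact absurd h (by simp)

theorem pk_none {B : Finset Cp} (h : pk B = none) : B = ∅ := by
  unfold pk at h
  split at h
  · exact absurd h (by simp)
  · rename_i hB
    exact Finset.not_nonempty_iff_eq_empty.1 hB

/-- the involution -/
noncomputable def inv (o : Et Col Row Dir Cp → Bool) : Et Col Row Dir Cp → Bool :=
  match pk (bad o) with
  | none => o
  | some c => flp c o

theorem inv_of {o : Et Col Row Dir Cp → Bool} {c : Cp} (h : pk (bad o) = some c) :
    inv o = flp c o := by
  simp [inv, h]

theorem inv_inv' {o : Et Col Row Dir Cp → Bool} : inv (inv o) = o := by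
  cases h : pk (bad o) with
  | none =>
    have h1 : inv o = o := by simp [inv, h]
    rw [h1, h1]
  | some c =>
    rw [inv_of h]
    have h2 : pk (bad (flp c o)) = some c := by rw [bad_flp, h]
    rw [inv_of h2, flp_flp]

end

end B19

open B19 in
open Classical in
theorem Z_eq_sum_good {Col Row Dir Cp : Type} [Fintype Col] [Fintype Row] [Fintype Dir]
    [Fintype Cp] [DecidableEq Col] [DecidableEq Row] [DecidableEq Dir] [DecidableEq Cp]
    (S : Sys Col Row Dir Cp) :
    Z S.E = ∑ o : Et Col Row Dir Cp → Bool, if S.Good o then sg o else 0 := by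
  unfold Z
  have key : (∑ o ∈ Finset.univ.filter (fun o : Et Col Row Dir Cp → Bool =>
      (∀ v, od S.E o v = 2) ∧ ¬ S.Good o), sg o) = 0 := by
    refine Finset.sum_involution (fun o _ => inv o) ?_ ?_ ?_ ?_
    · intro o ho
      simp only [Finset.mem_filter, Finset.mem_univ, true_and] at ho
      obtain ⟨h1, h2⟩ := ho
      cases h : pk (bad o) with
      | none =>
        exfalso
        have h3 := pk_none h
        refine h2 ⟨h1, fun c => ?_⟩
        by_contra hc
        have : c ∈ bad o := by simp [bad, hc]
        rw [h3] at this
        simp at this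
      | some c =>
        have hc := pk_some h
        simp only [bad, Finset.mem_filter, Finset.mem_univ, true_and] at hc
        rw [inv_of h, sg_flp c hc]
        ring
    · intro o ho hne
      simp only [Finset.mem_filter, Finset.mem_univ, true_and] at ho
      obtain ⟨h1, h2⟩ := ho
      intro heq
      cases h : pk (bad o) with
      | none =>
        have h3 := pk_none h
        refine h2 ⟨h1, fun c => ?_⟩
        by_contra hc
        have : c ∈ bad o := by simp [bad, hc]
        rw [h3] at this
        simp at this
      | some c =>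
        have hc := pk_some h
        simp only [bad, Finset.mem_filter, Finset.mem_univ, true_and] at hc
        rw [inv_of h] at heq
        have := sg_flp c hc
        rw [heq] at this
        apply hne
        linarith
    · intro o ho
      simp only [Finset.mem_filter, Finset.mem_univ, true_and] at ho ⊢
      obtain ⟨h1, h2⟩ := ho
      cases h : pk (bad o) with
      | none =>
        have h4 : inv o = o := by simp [inv, h]
        rw [h4]
        exact ⟨h1, h2⟩
      | some c =>
        rw [inv_of h]
        refine ⟨fun v => od_flp S c h1 v, fun hg => h2 ⟨h1, fun c' => ?_⟩⟩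
        have h5 := hg.2 c'
        by_contra hc
        have h6 : c' ∈ bad o := by simp [bad, hc]
        rw [← bad_flp c o] at h6
        simp only [bad, Finset.mem_filter, Finset.mem_univ, true_and] at h6
        exact h6 h5
    · intro o _
      exact inv_inv'
  rw [Finset.sum_filter] at key
  have h1 : ∀ o : Et Col Row Dir Cp → Bool,
      (if ∀ v, od S.E o v = 2 then sg o else 0) =
      (if S.Good o then sg o else 0) +
        (if (∀ v, od S.E o v = 2) ∧ ¬ S.Good o then sg o else 0) := by
    intro o
    by_cases hg : S.Good o
    · simp only [hg, hg.1, if_true, not_true, and_false, if_false, add_zero, implies_true]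
    · simp only [hg, if_false, not_false_eq_true, and_true, zero_add]
  rw [Finset.sum_congr rfl fun o _ => h1 o, Finset.sum_add_distrib, key, add_zero]

end Pool.Agent.W982.AT
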